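import Pool.Agent.Helper95.Lin.Basics
import Pool.Agent.Helper95.Lin.GoalsA

/-! # Packet CAU: Cauchy estimates -/

open Complex Metric Set Filter Topology MeasureTheory
open scoped ContDiff ComplexConjugate ComplexOrder

namespace Pool.Agent.Helper68.Lin

open Pool.Agent.Helper95.Lin

theorem CAU : S_CAU := by
  intro n m U hU K hK hKc
  obtain ⟨δ, hδ, hsub⟩ := hKc.exists_cthickening_subset_open hU hK
  have hρ : 0 < δ / 3 := by positivity
  refine ⟨cthickening δ K, hsub, hKc.cthickening, ?_, 2 / (δ / 3), by positivity, ?_⟩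
  · exact (self_subset_thickening hδ K).trans
      (interior_maximal (thickening_subset_cthickening δ K) isOpen_thickening)
  intro f hf s hs
  have hball : ∀ x ∈ K, ∀ w, ‖w - x‖ ≤ δ / 3 → ‖fderiv ℂ f w‖ ≤ s / (δ / 3) := by
    intro x hx w hw
    have h1 : ball w (2 * (δ / 3)) ⊆ cthickening δ K := by
      intro u hu
      refine mem_cthickening_of_dist_le u x δ K hx ?_
      rw [mem_ball] at hu
      calc dist u x ≤ dist u w + dist w x := dist_triangle _ _ _
        _ ≤ 2 * (δ / 3) + δ / 3 := by
            refine add_le_add hu.le ?_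
            rw [dist_eq_norm]; exact hw
        _ = δ := by ring
    exact Pool.Agent.Helper8.Abund.norm_fderiv_le_of_bound hρ
      (hf.mono (h1.trans hsub)) (fun u hu => hs u (h1 hu))
  constructor
  · intro z hz
    have hs0 : 0 ≤ s := (norm_nonneg _).trans (hs z (self_subset_cthickening K hz))
    refine (hball z hz z (by simpa using hρ.le)).trans ?_
    rw [div_mul_eq_mul_div]
    gcongr
    linarith
  · intro x hx y hy
    have hs0 : 0 ≤ s := (norm_nonneg _).trans (hs x (self_subset_cthickening K hx))
    rcases le_or_gt ‖x - y‖ (δ / 3) with hxy | hxy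
    · have h2 : ‖f x - f y‖ ≤ s / (δ / 3) * ‖x - y‖ := by
        refine Convex.norm_image_sub_le_of_norm_fderiv_le (𝕜 := ℂ) (s := closedBall y (δ / 3))
          (fun w hw => hf.differentiableAt (hU.mem_nhds (hsub ?_)))
          (fun w hw => hball y hy w ?_) (convex_closedBall _ _) (mem_closedBall_self hρ.le) ?_
        · refine mem_cthickening_of_dist_le w y δ K hy ((mem_closedBall.1 hw).trans ?_)
          linarith
        · rw [← dist_eq_norm]; exact mem_closedBall.1 hw
        · rw [mem_closedBall, dist_eq_norm]; exact hxy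
      refine h2.trans ?_
      refine mul_le_mul_of_nonneg_right ?_ (norm_nonneg _)
      rw [div_mul_eq_mul_div]
      gcongr
      linarith
    · have h3 : ‖f x - f y‖ ≤ 2 * s := by
        refine (norm_sub_le _ _).trans ?_
        have := hs x (self_subset_cthickening K hx)
        have := hs y (self_subset_cthickening K hy)
        linarith
      refine h3.trans ?_
      have h4 : 1 ≤ ‖x - y‖ / (δ / 3) := (one_le_div hρ).2 hxy.le
      calc 2 * s = 2 * s * 1 := by ring
        _ ≤ 2 * s * (‖x - y‖ / (δ / 3)) := mul_le_mul_of_nonneg_left h4 (by linarith)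
        _ = 2 / (δ / 3) * s * ‖x - y‖ := by field_simp

end Pool.Agent.Helper68.Lin
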