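import Pool.Agent.Helper95.Lin.Basics
import Pool.Agent.Helper95.Lin.GoalsA

/-! # Packet ADL: the adjoint action preserves generators -/

open Complex Metric Set Filter Topology MeasureTheory
open scoped ContDiff ComplexConjugate ComplexOrder

namespace Pool.Agent.Helper68.Lin

open Pool.Agent.Helper95.Lin

/-- Uniform first order expansion of a holomorphic map near a compact set. -/
theorem unif_taylor {n m : ℕ} {U : Set (Cn n)} (hU : IsOpen U) {f : Cn n → Cn m}
    (hf : DifferentiableOn ℂ f U) {K : Set (Cn n)} (hK : K ⊆ U) (hKc : IsCompact K) {ε : ℝ}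
    (hε : 0 < ε) : ∃ δ > 0, ∀ y ∈ K, ∀ x, ‖x - y‖ ≤ δ → x ∈ U ∧
      ‖f x - f y - fderiv ℂ f y (x - y)‖ ≤ ε * ‖x - y‖ := by
  obtain ⟨δ₀, hδ₀, hsub⟩ := hKc.exists_cthickening_subset_open hU hK
  have hKc' : IsCompact (cthickening δ₀ K) := hKc.cthickening
  have hcont : ContinuousOn (fderiv ℂ f) (cthickening δ₀ K) :=
    (holo_fderiv hU hf).continuousOn.mono hsub
  have huc := hKc'.uniformContinuousOn_of_continuous hcont
  rw [Metric.uniformContinuousOn_iff_le] at huc
  obtain ⟨δ₁, hδ₁, h1⟩ := huc ε hε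
  refine ⟨min δ₀ δ₁, lt_min hδ₀ hδ₁, fun y hy x hx => ?_⟩
  have hball : closedBall y (min δ₀ δ₁) ⊆ cthickening δ₀ K := fun w hw =>
    mem_cthickening_of_dist_le w y δ₀ K hy ((mem_closedBall.1 hw).trans (min_le_left _ _))
  have hxm : x ∈ closedBall y (min δ₀ δ₁) := by
    rw [mem_closedBall, dist_eq_norm]; exact hx
  have hym : y ∈ closedBall y (min δ₀ δ₁) :=
    mem_closedBall_self (lt_min hδ₀ hδ₁).le
  refine ⟨hsub (hball hxm), ?_⟩
  refine Convex.norm_image_sub_le_of_norm_fderiv_le' (𝕜 := ℂ) (s := closedBall y (min δ₀ δ₁))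
    (fun w hw => hf.differentiableAt (hU.mem_nhds (hsub (hball hw)))) (fun w hw => ?_)
    (convex_closedBall _ _) hym hxm
  have := h1 w (hball hw) y (hball hym) ((mem_closedBall.1 hw).trans (min_le_right _ _))
  rwa [dist_eq_norm] at this

theorem ADL : S_ADL := by
  intro b D Γ _ g hg V hV γ
  have hD : IsOpen D := hg.dom.isOpen
  obtain ⟨hVd, hV0, hVa⟩ := hV
  refine ⟨?_, fun z hz => ?_, fun K hK hKc ε hε => ?_⟩
  · have h1 : DifferentiableOn ℂ (fun z => fderiv ℂ (g γ) (g γ⁻¹ z) (V (g γ⁻¹ z))) D := by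
      have hgi : DifferentiableOn ℂ (g γ⁻¹) D := hg.act.holo _
      have hm : MapsTo (g γ⁻¹) D D := fun z hz => hg.act.maps _ z hz
      exact (((holo_fderiv hD (hg.act.holo γ)).comp hgi hm)).clm_apply (hVd.comp hgi hm)
    refine h1.congr fun z hz => ?_
    simp only [AdV, indicator_of_mem hz]
  · simp only [AdV, indicator_of_notMem hz]
  · -- the compact set
    set Ks : Set (Cn b) := g γ⁻¹ '' K with hKs
    have hgi : ContinuousOn (g γ⁻¹) K := (hg.act.holo _).continuousOn.mono hK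
    have hKsc : IsCompact Ks := hKc.image_of_continuousOn hgi
    have hKsD : Ks ⊆ D := by
      rintro _ ⟨z, hz, rfl⟩
      exact hg.act.maps _ z (hK hz)
    obtain ⟨M₁, hM₁⟩ := hKsc.exists_bound_of_continuousOn
      ((holo_fderiv hD (hg.act.holo γ)).continuousOn.mono hKsD)
    obtain ⟨M₂, hM₂⟩ := hKsc.exists_bound_of_continuousOn (hVd.continuousOn.mono hKsD)
    set A : ℝ := |M₁| + 1 with hA
    set B : ℝ := |M₂| + 1 with hB
    have hApos : 0 < A := by positivity
    have hBpos : 0 < B := by positivity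
    have hε2 : 0 < ε / (2 * B) := by positivity
    obtain ⟨δ, hδ, hT⟩ := unif_taylor hD (hg.act.holo γ) hKsD hKsc hε2
    have hε1 : 0 < min 1 (ε / (2 * A)) := lt_min one_pos (by positivity)
    obtain ⟨σ₁, hσ₁, h1⟩ := hVa Ks hKsD hKsc _ hε1
    refine ⟨min σ₁ (δ / B), lt_min hσ₁ (by positivity), fun σ hσ hσlt => ?_⟩
    obtain ⟨γ', hγ'⟩ := h1 σ hσ (hσlt.trans_le (min_le_left _ _))
    refine ⟨γ * γ' * γ⁻¹, fun z hz => ?_⟩
    have hzD := hK hz
    have hyKs : g γ⁻¹ z ∈ Ks := mem_image_of_mem _ hz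
    have hyD := hKsD hyKs
    have e1 : g (γ * γ' * γ⁻¹) z = g γ (g γ' (g γ⁻¹ z)) := by
      rw [hg.act.mul _ _ z hzD, hg.act.mul _ _ _ hyD]
    have e2 : z = g γ (g γ⁻¹ z) := (hg.act.inv_right γ hzD).symm
    have h2 := hγ' _ hyKs
    generalize hy : g γ⁻¹ z = y at *
    generalize hx : g γ' y = x at *
    have e3 : AdV D g γ V z = fderiv ℂ (g γ) y (V y) := by
      simp only [AdV, indicator_of_mem hzD, hy]
    rw [e1, e3]
    have hVy : ‖V y‖ ≤ |M₂| := (hM₂ y hyKs).trans (le_abs_self _)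
    have hDy : ‖fderiv ℂ (g γ) y‖ ≤ A :=
      (hM₁ y hyKs).trans ((le_abs_self _).trans (by rw [hA]; linarith))
    have h3 : ‖x - y‖ ≤ B * σ := by
      calc ‖x - y‖ = ‖(x - y - σ • V y) + σ • V y‖ := by rw [sub_add_cancel]
        _ ≤ ‖x - y - σ • V y‖ + ‖σ • V y‖ := norm_add_le _ _
        _ ≤ 1 * σ + σ * |M₂| := by
            refine add_le_add (h2.trans ?_) ?_
            · exact mul_le_mul_of_nonneg_right (min_le_left _ _) hσ.le
            · rw [norm_smul, Real.norm_of_nonneg hσ.le]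
              exact mul_le_mul_of_nonneg_left hVy hσ.le
        _ = B * σ := by rw [hB]; ring
    have h4 : ‖x - y‖ ≤ δ := by
      refine h3.trans ?_
      have : σ ≤ δ / B := (hσlt.trans_le (min_le_right _ _)).le
      rw [le_div_iff₀ hBpos] at this
      linarith
    obtain ⟨-, h5⟩ := hT y hyKs x h4
    have e4 : g γ x - z - σ • fderiv ℂ (g γ) y (V y)
        = (g γ x - g γ y - fderiv ℂ (g γ) y (x - y))
          + fderiv ℂ (g γ) y (x - y - σ • V y) := by
      have e5 : fderiv ℂ (g γ) y (x - y - σ • V y)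
          = fderiv ℂ (g γ) y (x - y) - σ • fderiv ℂ (g γ) y (V y) := by
        rw [map_sub]
        congr 1
        exact ((fderiv ℂ (g γ) y).restrictScalars ℝ).map_smul σ (V y)
      rw [e5, ← e2]
      abel
    rw [e4]
    calc ‖(g γ x - g γ y - fderiv ℂ (g γ) y (x - y)) + fderiv ℂ (g γ) y (x - y - σ • V y)‖
        ≤ ‖g γ x - g γ y - fderiv ℂ (g γ) y (x - y)‖
          + ‖fderiv ℂ (g γ) y (x - y - σ • V y)‖ := norm_add_le _ _
      _ ≤ ε / (2 * B) * (B * σ) + A * (ε / (2 * A) * σ) := by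
          refine add_le_add (h5.trans ?_) ?_
          · exact mul_le_mul_of_nonneg_left h3 hε2.le
          · refine ((fderiv ℂ (g γ) y).le_opNorm _).trans ?_
            refine mul_le_mul hDy (h2.trans ?_) (norm_nonneg _) hApos.le
            exact mul_le_mul_of_nonneg_right (min_le_right _ _) hσ.le
      _ = ε * σ := by field_simp; ring

end Pool.Agent.Helper68.Lin
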