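import Pool.Agent.Helper95.Lin.Basics
import Pool.Agent.Helper95.Lin.GoalsA
import Pool.Agent.Helper95.Lin.GoalsG

/-! # Packet CAREX: extremal families exist -/

open Complex Metric Set Filter Topology MeasureTheory
open scoped ContDiff ComplexConjugate ComplexOrder

namespace Pool.Agent.Helper68.Lin

open Pool.Agent.Helper95.Lin

theorem vm_coord {b m : ℕ} (V : Fin m → Cn b → Cn b) {F : Cn b → Cn m} {z : Cn b}
    (hF : DifferentiableAt ℂ F z) :
    vm V (fun j w => F w j) z = Matrix.of fun i j => fderiv ℂ F z (V i z) j := by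
  ext i j
  simp only [vm, Matrix.of_apply]
  rw [(hasFDerivAt_pi'.1 hF.hasFDerivAt j).fderiv]
  rfl

theorem CAREX : S_MONTEL → S_DLIM → S_CARC → S_CAREX := by
  intro hM hDL hC b m D hD V hV z hz
  obtain ⟨hbdd, -, -⟩ := hC D hD.isOpen V hV
  have hne : {r : ℝ | ∃ f : Fin m → Cn b → ℂ, Adm D f ∧ r = ‖(vm V f z).det‖}.Nonempty :=
    ⟨_, fun _ _ => 0, fun j => ⟨differentiableOn_const 0, fun w _ => by simp⟩, rfl⟩
  obtain ⟨u, -, hu, huS⟩ := exists_seq_tendsto_sSup hne (hbdd z hz)
  choose f hf hfu using huS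
  set G : ℕ → Cn b → Cn m := fun k w j => f k j w with hG
  have hGd : ∀ k, DifferentiableOn ℂ (G k) D := fun k =>
    differentiableOn_pi.2 fun j => (hf k j).1
  have hGb : ∀ k, ∀ w ∈ D, ‖G k w‖ ≤ 1 := fun k w hw =>
    (pi_norm_le_iff_of_nonneg zero_le_one).2 fun j => (hf k j).2 w hw
  obtain ⟨φ, hφ, F, hFd, hFc⟩ := hM (m := m) D hD.isOpen G hGd
    (fun K hK _ => ⟨1, fun k w hw => hGb k w (hK hw)⟩)
  obtain ⟨-, hder⟩ := hDL (m := m) D hD.isOpen (fun k => G (φ k)) F (fun k => hGd _) hFc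
  have hpt : ∀ w ∈ D, Tendsto (fun k => G (φ k) w) atTop (𝓝 (F w)) := by
    intro w hw
    rw [Metric.tendsto_nhds]
    intro ε hε
    filter_upwards [hFc {w} (singleton_subset_iff.2 hw) isCompact_singleton (ε / 2) (by positivity)]
      with k hk
    rw [dist_eq_norm]
    exact (hk w rfl).trans_lt (by linarith)
  have hdt : Tendsto (fun k => fderiv ℂ (G (φ k)) z) atTop (𝓝 (fderiv ℂ F z)) := by
    rw [Metric.tendsto_nhds]
    intro ε hε
    filter_upwards [hder {z} (singleton_subset_iff.2 hz) isCompact_singleton (ε / 2) (by positivity)]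
      with k hk
    rw [dist_eq_norm]
    exact (hk z rfl).trans_lt (by linarith)
  refine ⟨fun j w => F w j, fun j => ⟨differentiableOn_pi.1 hFd j, fun w hw => ?_⟩, ?_⟩
  · have h1 : ‖F w‖ ≤ 1 := le_of_tendsto (hpt w hw).norm (Eventually.of_forall fun k => hGb _ w hw)
    exact (norm_le_pi_norm (F w) j).trans h1
  · have hFz : DifferentiableAt ℂ F z := hFd.differentiableAt (hD.isOpen.mem_nhds hz)
    rw [vm_coord V hFz]
    have h2 : Tendsto (fun k => ‖(Matrix.of fun i j => fderiv ℂ (G (φ k)) z (V i z) j).det‖)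
        atTop (𝓝 ‖(Matrix.of fun i j => fderiv ℂ F z (V i z) j).det‖) := by
      have h3 : Tendsto (fun k => (fun i j => fderiv ℂ (G (φ k)) z (V i z) j :
          Fin m → Fin m → ℂ)) atTop (𝓝 (fun i j => fderiv ℂ F z (V i z) j)) := by
        rw [tendsto_pi_nhds]
        intro i
        rw [tendsto_pi_nhds]
        intro j
        have h4 : Tendsto (fun k => fderiv ℂ (G (φ k)) z (V i z)) atTop
            (𝓝 (fderiv ℂ F z (V i z))) :=
          ((ContinuousLinearMap.apply ℂ (Cn m) (V i z)).continuous.tendsto _).comp hdt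
        exact (tendsto_pi_nhds.1 h4) j
      have h5 : Continuous fun M : Matrix (Fin m) (Fin m) ℂ => ‖M.det‖ :=
        (Continuous.matrix_det continuous_id).norm
      exact (h5.tendsto _).comp h3
    have h6 : ∀ k, ‖(Matrix.of fun i j => fderiv ℂ (G (φ k)) z (V i z) j).det‖ = u (φ k) := by
      intro k
      rw [hfu (φ k)]
      have h7 := vm_coord V ((hGd (φ k)).differentiableAt (hD.isOpen.mem_nhds hz))
      rw [← h7]
    simp only [h6] at h2
    exact tendsto_nhds_unique h2 (hu.comp hφ.tendsto_atTop)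

end Pool.Agent.Helper68.Lin
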