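import Pool.Agent.Helper95.Lin.Basics
import Pool.Agent.Helper95.Lin.GoalsI

/-! # Packet MAIN: assembly of the main theorem in coordinates -/

open Complex Metric Set Filter Topology MeasureTheory
open scoped ContDiff ComplexConjugate ComplexOrder

namespace Pool.Agent.Helper68.Lin

open Pool.Agent.Helper95.Lin Pool.Agent.Helper16.Abund Pool.Agent.Helper92.Orb

section

variable {b : ℕ} {D : Set (Cn b)} {Γ : Type} [Group Γ] {g : Γ → Cn b → Cn b}
  {a β : Γ → Cn b → ℂ}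

/-- `ν` acts on the fibre over `z` as the translation by `c`. -/
def TrF (g : Γ → Cn b → Cn b) (a β : Γ → Cn b → ℂ) (z : Cn b) (ν : Γ) (c : ℂ) : Prop :=
  g ν z = z ∧ a ν z = 1 ∧ β ν z = c

theorem TrF.one (h : LAct D g a β) {z : Cn b} (hz : z ∈ D) : TrF g a β z (1 : Γ) 0 :=
  ⟨h.base.act.one z hz, h.a_one z hz, h.b_one z hz⟩

theorem TrF.mul (h : LAct D g a β) {z : Cn b} (hz : z ∈ D) {ν ν' : Γ} {c c' : ℂ}
    (h1 : TrF g a β z ν c) (h2 : TrF g a β z ν' c') : TrF g a β z (ν * ν') (c + c') := by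
  obtain ⟨a1, a2, a3⟩ := h1
  obtain ⟨b1, b2, b3⟩ := h2
  refine ⟨?_, ?_, ?_⟩
  · rw [h.base.act.mul _ _ z hz, b1, a1]
  · rw [h.a_mul _ _ z hz, b1, a2, b2, one_mul]
  · rw [h.b_mul _ _ z hz, b1, a2, b3, a3, one_mul, add_comm]

theorem TrF.inv (h : LAct D g a β) {z : Cn b} (hz : z ∈ D) {ν : Γ} {c : ℂ}
    (h1 : TrF g a β z ν c) : TrF g a β z ν⁻¹ (-c) := by
  obtain ⟨a1, a2, a3⟩ := h1
  have e1 := h.base.act.inv_left ν hz
  rw [a1] at e1
  have e2 := h.a_mul ν⁻¹ ν z hz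
  rw [inv_mul_cancel, h.a_one z hz, a1, a2, mul_one] at e2
  have e3 := h.b_mul ν⁻¹ ν z hz
  rw [inv_mul_cancel, h.b_one z hz, a1, a3, ← e2, one_mul] at e3
  exact ⟨e1, e2.symm, by linear_combination -e3⟩

theorem TrF.pow (h : LAct D g a β) {z : Cn b} (hz : z ∈ D) {ν : Γ} {c : ℂ}
    (h1 : TrF g a β z ν c) (n : ℕ) : TrF g a β z (ν ^ n) (n * c) := by
  induction n with
  | zero => simpa using TrF.one h hz
  | succ n ih =>
    have := TrF.mul h hz ih h1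
    rw [pow_succ]
    push_cast
    rw [add_mul, one_mul]
    exact this

theorem TrF.zpow (h : LAct D g a β) {z : Cn b} (hz : z ∈ D) {ν : Γ} {c : ℂ}
    (h1 : TrF g a β z ν c) (n : ℤ) : TrF g a β z (ν ^ n) (n * c) := by
  obtain ⟨k, rfl | rfl⟩ := n.eq_nat_or_neg
  · rw [zpow_natCast]
    simpa using TrF.pow h hz h1 k
  · rw [zpow_neg, zpow_natCast]
    have := TrF.inv h hz (TrF.pow h hz h1 k)
    push_cast
    rw [neg_mul]
    exact this

end

theorem MAIN : S_T0 → S_KACT → S_DISCR → S_LATT → S_MAIN := by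
  intro hT0 hKACT hDISCR hLATT b D hD hconn hbdd Γ _ _ hact hfin hk
  obtain ⟨h, hK, hinv⟩ := hk
  obtain ⟨g, a, β, hL, hT⟩ := hT0 hD hconn hbdd Γ hact hfin
  obtain ⟨H, hKA⟩ := hKACT hD Γ g a β hL hT h hK hinv
  obtain ⟨ν₁, ν₂, h1, h2⟩ := hLATT hL (hDISCR hL hKA)
  refine ⟨fun z l _ => (![β ν₁ z, β ν₂ z] : Fin (2 * 1) → ℂ) l, ⟨?_, fun z hz => ?_⟩,
    fun m => ?_⟩
  · rw [differentiableOn_pi]
    intro l
    rw [differentiableOn_pi]
    intro _
    fin_cases l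
    · exact hL.b_holo ν₁
    · exact hL.b_holo ν₂
  · have h3 := (h2 z hz).map' (LinearMap.pi (fun _ : Fin 1 => (LinearMap.id : ℂ →ₗ[ℝ] ℂ)))
      (by
        rw [LinearMap.ker_eq_bot]
        intro x y hxy
        exact congrFun hxy 0)
    exact h3
  · refine ⟨ν₁ ^ (m 0) * ν₂ ^ (m 1), fun y => ?_⟩
    have hv : base (tval y) ∈ D := y.2
    have e1 := h1 _ hv
    have t1 : TrF g a β (base (tval y)) ν₁ (β ν₁ (base (tval y))) := ⟨e1.1, e1.2.2.1, rfl⟩
    have t2 : TrF g a β (base (tval y)) ν₂ (β ν₂ (base (tval y))) := ⟨e1.2.1, e1.2.2.2, rfl⟩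
    obtain ⟨f1, f2, f3⟩ := TrF.mul hL hv (TrF.zpow hL hv t1 (m 0)) (TrF.zpow hL hv t2 (m 1))
    have e2 := hT (ν₁ ^ (m 0) * ν₂ ^ (m 1)) y
    apply Subtype.ext
    refine e2.trans ?_
    have e3 : Tt g a β (ν₁ ^ (m 0) * ν₂ ^ (m 1)) (tval y) =
        shift (fun z l _ => (![β ν₁ z, β ν₂ z] : Fin (2 * 1) → ℂ) l) (fun l => (m l : ℝ))
          (tval y) := by
      unfold Tt shift
      rw [f1, f2, f3]
      congr 1
      funext j
      have hj : j = 0 := Subsingleton.elim _ _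
      subst hj
      simp only [Pi.add_apply, fib, comb, one_mul]
      congr 1
      rw [Finset.sum_apply]
      exact (Fin.sum_univ_two (fun l : Fin 2 => ((m l : ℝ) : ℂ) *
        (![β ν₁ (base (tval y)), β ν₂ (base (tval y))] : Fin 2 → ℂ) l)).symm
    exact e3

end Pool.Agent.Helper68.Lin
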