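import Pool.Agent.Helper95.Lin.Basics
import Pool.Agent.Helper95.Lin.GoalsA

/-! # Packet PWR: powers of elements close to the identity -/

open Complex Metric Set Filter Topology MeasureTheory
open scoped ContDiff ComplexConjugate ComplexOrder

namespace Pool.Agent.Helper68.Lin

open Pool.Agent.Helper95.Lin

theorem PWR : S_CLEUP → S_PWR := by
  intro hUP b D Γ _ g hg K hK hKc
  obtain ⟨C₁, ρ, hC₁, hρ, h⟩ := hUP D hg.dom.isOpen K hK hKc
  obtain ⟨R, hR, hRD⟩ := hg.dom.exists_norm_le
  refine ⟨R * C₁, ρ, by positivity, hρ, fun γ s hs z hz hzs => ?_⟩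
  have hzD := hK hz
  have hs0 : 0 ≤ s := (norm_nonneg _).trans hzs
  have h1 : CLe D (C₁ * s) z (g γ z) := by
    have h2 := (h z hz (g γ z) (by rw [norm_sub_rev]; exact hzs.trans hs)).2
    refine h2.mono ?_
    rw [norm_sub_rev]
    exact mul_le_mul_of_nonneg_left hzs hC₁
  constructor
  · have h3 := h1.act hg.act γ⁻¹
    rw [hg.act.inv_left γ hzD] at h3
    have h4 := h3.norm_le hR hRD
    rw [mul_assoc]
    exact h4
  · intro j
    have h5 : ∀ j : ℕ, CLe D (j * (C₁ * s)) z (g (γ ^ j) z) := by
      intro j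
      induction j with
      | zero =>
        rw [pow_zero, hg.act.one z hzD]
        exact CLe.refl (by positivity) z
      | succ j ih =>
        have h6 := ih.trans (h1.act hg.act (γ ^ j))
        rw [← hg.act.pow' γ j hzD] at h6
        push_cast
        rw [add_mul, one_mul]
        exact h6
    have h7 := (h5 j).symm.norm_le hR hRD
    refine h7.trans (le_of_eq ?_)
    ring

end Pool.Agent.Helper68.Lin
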