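import Pool.Agent.Helper95.Lin.GoalsA
import Pool.Agent.Helper95.Lin.GoalsD

/-! # Packet UNI: uniqueness of integral curves -/

open Complex Metric Set Filter Topology MeasureTheory
open scoped ContDiff ComplexConjugate ComplexOrder

namespace Pool.Agent.Helper68.Lin

open Pool.Agent.Helper95.Lin

/-- A holomorphic map is Lipschitz on compact sets. -/
theorem lip_of_cau (hCAU : S_CAU) {n m : ℕ} {U : Set (Cn n)} (hU : IsOpen U) {f : Cn n → Cn m}
    (hf : DifferentiableOn ℂ f U) {K : Set (Cn n)} (hK : K ⊆ U) (hKc : IsCompact K) :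
    ∃ L : NNReal, LipschitzOnWith L f K := by
  obtain ⟨K', hK'U, hK'c, -, C, hC, h⟩ := hCAU (m := m) U hU K hK hKc
  obtain ⟨s, hs⟩ := hK'c.exists_bound_of_continuousOn (hf.continuousOn.mono hK'U)
  obtain ⟨-, h2⟩ := h f hf s hs
  refine ⟨Real.toNNReal (C * s), LipschitzOnWith.of_dist_le_mul fun x hx y hy => ?_⟩
  rw [dist_eq_norm, dist_eq_norm]
  refine (h2 x hx y hy).trans ?_
  exact mul_le_mul_of_nonneg_right (Real.le_coe_toNNReal _) (norm_nonneg _)

theorem UNI : S_CAU → S_UNI := by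
  intro hCAU b D hD V hV z T x y hx hy
  have hxc : ContinuousOn x (Icc 0 T) := fun t ht => (hx.2 t ht).2.continuousWithinAt
  have hyc : ContinuousOn y (Icc 0 T) := fun t ht => (hy.2 t ht).2.continuousWithinAt
  have hKc : IsCompact (x '' Icc 0 T ∪ y '' Icc 0 T) :=
    (isCompact_Icc.image_of_continuousOn hxc).union (isCompact_Icc.image_of_continuousOn hyc)
  have hK : x '' Icc 0 T ∪ y '' Icc 0 T ⊆ D := by
    rintro w (⟨t, ht, rfl⟩ | ⟨t, ht, rfl⟩)
    · exact (hx.2 t ht).1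
    · exact (hy.2 t ht).1
  obtain ⟨L, hL⟩ := lip_of_cau hCAU hD hV hK hKc
  have key := ODE_solution_unique_of_mem_Icc_right (v := fun _ => V)
    (s := fun _ => x '' Icc 0 T ∪ y '' Icc 0 T) (K := L) (f := x) (g := y) (a := 0) (b := T)
    (fun t _ => hL) hxc
    (fun t ht => (hx.2 t (Ico_subset_Icc_self ht)).2.mono_of_mem_nhdsWithin
      (Icc_mem_nhdsGE_of_mem ht))
    (fun t ht => Or.inl (mem_image_of_mem _ (Ico_subset_Icc_self ht))) hyc
    (fun t ht => (hy.2 t (Ico_subset_Icc_self ht)).2.mono_of_mem_nhdsWithin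
      (Icc_mem_nhdsGE_of_mem ht))
    (fun t ht => Or.inr (mem_image_of_mem _ (Ico_subset_Icc_self ht)))
    (hx.1.trans hy.1.symm)
  exact key

end Pool.Agent.Helper68.Lin
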